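import Pool.Agent.Y645.UG.Stm

/-!
# The transcendence degree against the multiplicative rank (project UG)
-/

namespace Pool.Agent.Y390.UG

open MvPolynomial Module Pool.Agent.Y645.UL

/-- one more element raises the transcendence degree by at most one -/
theorem td_insert {k L M : Type} [Field k] [Field L] [Algebra k L] [Fintype M] (y : M → L) (a : L)
    (y' : M ⊕ Unit → L) (h1 : ∀ m, y' (Sum.inl m) = y m) (h2 : y' (Sum.inr ()) = a) :
    td k y' ≤ td k y + 1 := by
  have hr : Set.range y' = insert a (Set.range y) := by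
    ext x
    simp only [Set.mem_range, Set.mem_insert_iff]
    constructor
    · rintro ⟨m | ⟨⟩, rfl⟩
      · exact Or.inr ⟨m, (h1 m).symm⟩
      · exact Or.inl h2
    · rintro (rfl | ⟨m, rfl⟩)
      · exact ⟨Sum.inr (), h2⟩
      · exact ⟨Sum.inl m, h1 m⟩
  have h3 : ((td k y' : ℕ) : ℕ∞) ≤ ((td k y + 1 : ℕ) : ℕ∞) := by
    rw [Nat.cast_add, coe_td, coe_td, hr]
    exact Matroid.eRk_insert_le_add_one _ _ _
  exact_mod_cast h3

/-- a coordinate which does not raise the rank is algebraic -/
theorem alg_of_rank {k L N M : Type} [Field k] [Field L] [Algebra k L] [Fintype N] [Fintype M]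
    [DecidableEq N] (z : N → Lˣ) (u : M → N → ℤ) (n : N)
    (h : mrk (fun m => mon z (Sum.elim u (fun _ : Unit => Pi.single n 1) m)) ≤
      mrk (fun m => mon z (u m))) :
    IsAlgebraic (Algebra.adjoin k (Set.range (fun i => ((mon z (u i) : Lˣ) : L)))) (z n : L) := by
  classical
  set u' : M ⊕ Unit → N → ℤ := Sum.elim u (fun _ : Unit => Pi.single n 1) with hu'
  have key : ∃ ω ∈ Lam (fun m => mon z (u' m)), ω (Sum.inr ()) ≠ 0 := by
    by_contra hc
    push Not at hc
    have hmem : ∀ ω ∈ Lam (fun m => mon z (u' m)),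
        (LinearMap.funLeft ℤ ℤ (Sum.inl : M → M ⊕ Unit)) ω ∈ Lam (fun m => mon z (u m)) := by
      intro ω hω
      have h0 := hc ω hω
      rw [mem_Lam, Fintype.prod_sum_type] at hω
      rw [mem_Lam]
      simpa [hu', h0, LinearMap.funLeft_apply] using hω
    let φ : Lam (fun m => mon z (u' m)) →ₗ[ℤ] Lam (fun m => mon z (u m)) :=
      (LinearMap.funLeft ℤ ℤ (Sum.inl : M → M ⊕ Unit)).restrict hmem
    have hφ : Function.Injective φ := by
      intro a b hab
      apply Subtype.ext
      funext i
      rcases i with m | ⟨⟩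
      · have := congrFun (congrArg Subtype.val hab) m
        exact this
      · rw [hc _ a.2, hc _ b.2]
    have h1 := LinearMap.finrank_le_finrank_of_injective hφ
    have h2 := mrk_add (fun m => mon z (u' m))
    have h3 := mrk_add (fun m => mon z (u m))
    rw [Fintype.card_sum, Fintype.card_unit] at h2
    omega
  obtain ⟨ω, hω, h0⟩ := key
  rw [mem_Lam, Fintype.prod_sum_type] at hω
  refine alg_of_mem (k := k) z u (le_refl (Lam z)) n h0 ?_
  have h1 : ω (Sum.inr ()) • (Pi.single n 1 : N → ℤ) =
      (Fintype.linearCombination ℤ u' ω) +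
        Fintype.linearCombination ℤ u (fun m => - ω (Sum.inl m)) := by
    rw [Fintype.linearCombination_apply, Fintype.linearCombination_apply, Fintype.sum_sum_type]
    simp [hu', Finset.sum_neg_distrib]
  rw [h1]
  refine Submodule.add_mem_sup ?_ ⟨_, rfl⟩
  rw [mem_Lam_mon, mon_lin, mon, Fintype.prod_sum_type]
  exact hω

theorem t_TDg : Pool.Agent.Y645.UG.S_TDg := by
  classical
  intro k L N M _ _ _ _ _ z u
  have main : ∀ (D : ℕ) (M : Type) [Fintype M] (u : M → N → ℤ),
      mrk z ≤ mrk (fun m => mon z (u m)) + D →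
      tdu k z + mrk (fun m => mon z (u m)) ≤ mrk z + tdu k (fun m => mon z (u m)) := by
    intro D
    induction D with
    | zero =>
      intro M _ u hD
      have hle : mrk (fun m => mon z (u m)) ≤ mrk z := mrk_mon_le z u
      have h1 : tdu k z ≤ tdu k (fun m => mon z (u m)) := by
        refine td_le_of_alg fun n => alg_of_rank z u n ?_
        have := mrk_mon_le z (Sum.elim u (fun _ : Unit => (Pi.single n 1 : N → ℤ)))
        omega
      omega
    | succ D ih =>
      intro M _ u hD
      have hle : mrk (fun m => mon z (u m)) ≤ mrk z := mrk_mon_le z u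
      by_cases hall : ∀ n, mrk (fun m => mon z (Sum.elim u (fun _ : Unit => Pi.single n 1) m)) ≤
          mrk (fun m => mon z (u m))
      · have h1 : tdu k z ≤ tdu k (fun m => mon z (u m)) :=
          td_le_of_alg fun n => alg_of_rank z u n (hall n)
        omega
      · push Not at hall
        obtain ⟨n, hn⟩ := hall
        have h2 := ih (M ⊕ Unit) (Sum.elim u (fun _ : Unit => Pi.single n 1)) (by omega)
        have h3 : tdu k (fun m => mon z (Sum.elim u (fun _ : Unit => Pi.single n 1) m)) ≤
            tdu k (fun m => mon z (u m)) + 1 :=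
          td_insert _ ((mon z (Pi.single n 1) : Lˣ) : L) _ (fun _ => rfl) rfl
        omega
  exact main (mrk z) M u (by omega)

end Pool.Agent.Y390.UG
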